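import Mathlib

/-!
# Erdős's statement on graphs on `ω₁ ^ (ω + 2)` refutes the continuum hypothesis

The statement of the problem: every graph on the ordinal `ω₁ ^ (ω + 2)` has an infinite path
or an independent set of order type `ω₁ ^ (ω + 2)`.  We prove that this statement implies
`ℵ₁ < 2 ^ ℵ₀`.

Construction (assuming `2 ^ ℵ₀ ≤ ℵ₁`).  Write `x < ω₁ ^ (ω + 2)` in coordinates:
`et x < ω₁` is the index of its block of length `ω₁ ^ (ω + 1)`, `ze x` is its position modulo
`ω₁ ^ ω`, and `kap x` is the least `k` with `ze x < ω₁ ^ k`.  All vertices with the same pair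
`(et x, kap x) = (ζ, k)` get the same finite set of ancestors and the same rank below
`2 ^ (k + 1)`; the graph is the comparability graph of the resulting forest.  The continuum
hypothesis gives an enumeration in type `ω₁` of all pairs (countable ordinal `δ`, countable
set `B` of vertices), and the position of the class `(ζ, k)` is found by a bisection on ranks
which treats the first `k` guesses enumerated before `ζ` in order of increasing `δ`.
-/

open Ordinal Cardinal Set

namespace Pool.Agent.Results.MP_46bbfb_lc.RefutesCH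

/-! ### The statement -/

/-- The vertex set: the ordinal `ω₁ ^ (ω + 2)`, as the set of all smaller ordinals. -/
abbrev V : Type 1 := Set.Iio ((ω₁ : Ordinal.{0}) ^ (ω + 2))

/-- The graph `G` contains an infinite path: an injective sequence of vertices whose
consecutive members are adjacent. -/
def HasInfinitePath (G : SimpleGraph V) : Prop :=
  ∃ v : ℕ → V, Function.Injective v ∧ ∀ n, G.Adj (v n) (v (n + 1))

/-- The graph `G` has an independent set whose order type is that of the whole vertex set,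
that is, `ω₁ ^ (ω + 2)`. -/
def HasFullIndependentSet (G : SimpleGraph V) : Prop :=
  ∃ S : Set V, G.IsIndepSet S ∧ Nonempty (S ≃o V)

/-- The statement of Q1: every graph on `ω₁ ^ (ω + 2)` contains an infinite path or an
independent set of order type `ω₁ ^ (ω + 2)`. -/
def ErdosStatement : Prop :=
  ∀ G : SimpleGraph V, HasInfinitePath G ∨ HasFullIndependentSet G


/-! ### Recursion along the ordinals with a specification -/

theorem exists_rec {α : Type*} [Inhabited α] (P : Ordinal.{0} → (Ordinal.{0} → α) → α → Prop)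
    (hP : ∀ ζ f g a, (∀ ξ < ζ, f ξ = g ξ) → P ζ f a → P ζ g a)
    (hex : ∀ ζ f, (∀ ξ < ζ, P ξ f (f ξ)) → ∃ a, P ζ f a) :
    ∃ f : Ordinal.{0} → α, ∀ ζ, P ζ f (f ζ) := by
  classical
  let step : (ζ : Ordinal.{0}) → ((ξ : Ordinal.{0}) → ξ < ζ → α) → α := fun ζ ih =>
    if h : ∃ a, P ζ (fun ξ => if h : ξ < ζ then ih ξ h else default) a then h.choose else default
  let F : Ordinal.{0} → α := WellFounded.fix (r := (· < · : Ordinal.{0} → Ordinal.{0} → Prop))
    wellFounded_lt step
  have hF : ∀ ζ, F ζ = step ζ (fun ξ _ => F ξ) := fun ζ => WellFounded.fix_eq _ _ _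
  refine ⟨F, fun ζ => ?_⟩
  induction ζ using WellFoundedLT.induction with
  | ind ζ IH =>
    let T : Ordinal.{0} → α := fun ξ => if ξ < ζ then F ξ else default
    have hT : ∀ ξ < ζ, T ξ = F ξ := fun ξ hξ => by simp [T, hξ]
    have h1 : ∃ a, P ζ T a := by
      apply hex
      intro ξ hξ
      rw [hT ξ hξ]
      refine hP ξ F T (F ξ) ?_ (IH ξ hξ)
      intro ξ' hξ'
      exact (hT ξ' (hξ'.trans hξ)).symm
    have h2 : F ζ = h1.choose := by
      rw [hF]
      have : (fun ξ => if h : ξ < ζ then (fun ξ (_ : ξ < ζ) => F ξ) ξ h else default) = T := by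
        funext ξ
        by_cases h : ξ < ζ <;> simp [T, h]
      simp only [step]
      rw [dif_pos (by simpa [T] using h1)]
    rw [h2]
    exact hP ζ T F _ hT h1.choose_spec

/-! ### One tree of bounded height -/

section Tree

variable {W : Type*} (N : ℕ) (U : Set W) (η e : W → Ordinal.{0})

/-- `x` lies above the optional node `c`. -/
def Above (D : Ordinal.{0} → Set W × ℕ) (c : Option W) (x : W) : Prop :=
  ∀ c' ∈ c, c' ∈ (D (η x)).1

/-- The set consisting of an optional node and its ancestors. -/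
def Anc (D : Ordinal.{0} → Set W × ℕ) (c : Option W) : Set W :=
  {y | ∃ c' ∈ c, y = c' ∨ y ∈ (D (η c')).1}

/-- The rank of an optional node. -/
def Rk (D : Ordinal.{0} → Set W × ℕ) (c : Option W) : ℕ :=
  match c with
  | none => 2 ^ (N + 1)
  | some c' => (D (η c')).2

/-- Guesses that are to be treated at stage `ζ`. -/
def Valid (g : Ordinal.{0} × Set W) (ζ : Ordinal.{0}) : Prop :=
  g.1 ≤ ζ ∧ ∀ x ∈ g.2, e x < g.1 ∧ x ∈ U

/-- The guess `g` is treated by the set of ancestors `S` and the rank `a`. -/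
def Good (D : Ordinal.{0} → Set W × ℕ) (g : Ordinal.{0} × Set W) (S : Set W) (a : ℕ) : Prop :=
  (∃ x ∈ g.2, x ∈ S) ∨
    ∃ c : Option W, (∀ c' ∈ c, c' ∈ S ∧ e c' < g.1) ∧
      ∀ x ∈ g.2, Above η D c x → (D (η x)).2 < a

/-- Specification of the data at stage `ζ`. -/
def Spec (G : Ordinal.{0} → Finset (Ordinal.{0} × Set W)) (ζ : Ordinal.{0})
    (D : Ordinal.{0} → Set W × ℕ) (p : Set W × ℕ) : Prop :=
  ∃ c : Option W, (∀ c' ∈ c, e c' < ζ ∧ c' ∈ U) ∧ p.1 = Anc η D c ∧ p.2 < Rk N η D c ∧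
    ∀ g ∈ G ζ, Valid U e g ζ → Good η e D g p.1 p.2

/-- Invariants of the data at stage `ζ`. -/
structure Inv (D : Ordinal.{0} → Set W × ℕ) (ζ : Ordinal.{0}) : Prop where
  lt : ∀ x ∈ (D ζ).1, e x < ζ
  mem : ∀ x ∈ (D ζ).1, x ∈ U
  trans : ∀ y ∈ (D ζ).1, ∀ x ∈ (D (η y)).1, x ∈ (D ζ).1
  chain : ∀ x ∈ (D ζ).1, ∀ y ∈ (D ζ).1, x = y ∨ x ∈ (D (η y)).1 ∨ y ∈ (D (η x)).1
  rank : ∀ x ∈ (D ζ).1, (D ζ).2 < (D (η x)).2
  bound : (D ζ).2 < 2 ^ (N + 1)

variable {N U η e}

theorem inv_of_spec (hηe : ∀ x, η x ≤ e x) {G : Ordinal.{0} → Finset (Ordinal.{0} × Set W)}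
    {D : Ordinal.{0} → Set W × ℕ} {ζ : Ordinal.{0}}
    (h : ∀ ξ < ζ, Spec N U η e G ξ D (D ξ)) : ∀ ξ < ζ, Inv N U η e D ξ := by
  intro ξ
  induction ξ using WellFoundedLT.induction with
  | ind ξ IH =>
    intro hξ
    obtain ⟨c, hc, h1, h2, -⟩ := h ξ hξ
    rcases c with _ | c
    · have h0 : (D ξ).1 = ∅ := by
        rw [h1]; ext y; simp [Anc]
      refine ⟨?_, ?_, ?_, ?_, ?_, ?_⟩
      · simp [h0]
      · simp [h0]
      · simp [h0]
      · simp [h0]
      · simp [h0]
      · simpa [Rk] using h2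
    · have hc' := hc c rfl
      have hlt : η c < ξ := (hηe c).trans_lt hc'.1
      have I := IH (η c) hlt (hlt.trans hξ)
      have hmem : ∀ y, y ∈ (D ξ).1 ↔ y = c ∨ y ∈ (D (η c)).1 := by
        intro y; rw [h1]; simp [Anc]
      have h2' : (D ξ).2 < (D (η c)).2 := by simpa [Rk] using h2
      refine ⟨?_, ?_, ?_, ?_, ?_, ?_⟩
      · intro x hx
        rcases (hmem x).1 hx with rfl | hx
        · exact hc'.1
        · exact (I.lt x hx).trans hlt
      · intro x hx
        rcases (hmem x).1 hx with rfl | hx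
        · exact hc'.2
        · exact I.mem x hx
      · intro y hy x hx
        rcases (hmem y).1 hy with rfl | hy
        · exact (hmem x).2 (Or.inr hx)
        · exact (hmem x).2 (Or.inr (I.trans y hy x hx))
      · intro x hx y hy
        rcases (hmem x).1 hx with rfl | hx <;> rcases (hmem y).1 hy with rfl | hy
        · exact Or.inl rfl
        · exact Or.inr (Or.inr hy)
        · exact Or.inr (Or.inl hx)
        · exact I.chain x hx y hy
      · intro x hx
        rcases (hmem x).1 hx with rfl | hx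
        · exact h2'
        · exact h2'.trans (I.rank x hx)
      · exact h2'.trans I.bound

theorem exists_position (hηe : ∀ x, η x ≤ e x) {G : Ordinal.{0} → Finset (Ordinal.{0} × Set W)}
    {D : Ordinal.{0} → Set W × ℕ} {ζ : Ordinal.{0}}
    (h : ∀ ξ < ζ, Spec N U η e G ξ D (D ξ)) (s : Finset (Ordinal.{0} × Set W))
    (hs : ∀ g ∈ s, Valid U e g ζ) (hcard : s.card ≤ N) :
    ∃ (c : Option W) (a : ℕ), (∀ c' ∈ c, (∃ g ∈ s, e c' < g.1) ∧ c' ∈ U) ∧
      a + 2 ^ (N + 1 - s.card) ≤ Rk N η D c ∧ ∀ g ∈ s, Good η e D g (Anc η D c) a := by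
  classical
  have hI := inv_of_spec hηe h
  induction s using Finset.induction_on_max_value (fun g : Ordinal.{0} × Set W => g.1) with
  | empty => exact ⟨none, 0, by simp, by simp [Rk], by simp⟩
  | insert g s hg hmax ih =>
    have hcard' : s.card + 1 ≤ N := by
      rw [Finset.card_insert_of_notMem hg] at hcard; exact hcard
    obtain ⟨c, a, hc, hR, hgood⟩ := ih (fun g' hg' => hs g' (Finset.mem_insert_of_mem hg'))
      (by omega)
    have hgV : Valid U e g ζ := hs g (Finset.mem_insert_self _ _)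
    rw [Finset.card_insert_of_notMem hg]
    obtain ⟨m, hm⟩ : ∃ m, N + 1 - s.card = m + 1 := ⟨N - s.card, by omega⟩
    have hm' : N + 1 - (s.card + 1) = m := by omega
    rw [hm] at hR
    rw [hm']
    have hpow : 2 ^ (m + 1) = 2 ^ m + 2 ^ m := by rw [pow_succ]; ring
    by_cases hcase : ∃ x ∈ g.2, Above η D c x ∧ a + 2 ^ m ≤ (D (η x)).2
    · obtain ⟨x, hx, hax, hrx⟩ := hcase
      have hexζ : e x < ζ := (hgV.2 x hx).1.trans_le hgV.1
      have hηx : η x < ζ := (hηe x).trans_lt hexζ
      refine ⟨some x, a, ?_, by simpa [Rk] using hrx, ?_⟩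
      · intro c' hc'
        obtain rfl : x = c' := by simpa using hc'
        exact ⟨⟨g, Finset.mem_insert_self _ _, (hgV.2 x hx).1⟩, (hgV.2 x hx).2⟩
      · have hsub : Anc η D c ⊆ Anc η D (some x) := by
          rintro y ⟨c', hc', hy⟩
          have h3 := hax c' hc'
          refine ⟨x, rfl, Or.inr ?_⟩
          rcases hy with rfl | hy
          · exact h3
          · exact (hI _ hηx).trans c' h3 y hy
        intro g' hg'
        rcases Finset.mem_insert.1 hg' with rfl | hg'
        · exact Or.inl ⟨x, hx, ⟨x, rfl, Or.inl rfl⟩⟩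
        · rcases hgood g' hg' with ⟨y, hy, hy'⟩ | ⟨c', hc', hy⟩
          · exact Or.inl ⟨y, hy, hsub hy'⟩
          · exact Or.inr ⟨c', fun c'' hc'' => ⟨hsub (hc' c'' hc'').1, (hc' c'' hc'').2⟩, hy⟩
    · push Not at hcase
      refine ⟨c, a + 2 ^ m, ?_, by omega, ?_⟩
      · intro c' hc'
        obtain ⟨⟨g', hg', h4⟩, h5⟩ := hc c' hc'
        exact ⟨⟨g', Finset.mem_insert_of_mem hg', h4⟩, h5⟩
      · intro g' hg'
        rcases Finset.mem_insert.1 hg' with rfl | hg'
        · refine Or.inr ⟨c, ?_, fun x hx hax => hcase x hx hax⟩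
          intro c' hc'
          obtain ⟨⟨g'', hg'', h4⟩, h5⟩ := hc c' hc'
          exact ⟨⟨c', hc', Or.inl rfl⟩, h4.trans_le (hmax g'' hg'')⟩
        · rcases hgood g' hg' with hy | ⟨c', hc', hy⟩
          · exact Or.inl hy
          · exact Or.inr ⟨c', hc', fun x hx hax => (hy x hx hax).trans_le (Nat.le_add_right _ _)⟩

theorem exists_tree (hηe : ∀ x, η x ≤ e x) (G : Ordinal.{0} → Finset (Ordinal.{0} × Set W))
    (hG : ∀ ζ, (G ζ).card ≤ N) :
    ∃ D : Ordinal.{0} → Set W × ℕ, (∀ ζ, Inv N U η e D ζ) ∧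
      ∀ ζ, ∀ g ∈ G ζ, Valid U e g ζ → Good η e D g (D ζ).1 (D ζ).2 := by
  classical
  have hP : ∀ (ζ : Ordinal.{0}) (f g : Ordinal.{0} → Set W × ℕ) (a : Set W × ℕ),
      (∀ ξ < ζ, f ξ = g ξ) → Spec N U η e G ζ f a → Spec N U η e G ζ g a := by
    rintro ζ f g ⟨S, a⟩ hfg ⟨c, hc, h1, h2, h3⟩
    have hηc : ∀ c' ∈ c, f (η c') = g (η c') := fun c' hc' =>
      hfg _ ((hηe c').trans_lt (hc c' hc').1)
    refine ⟨c, hc, ?_, ?_, ?_⟩
    · rw [h1]
      ext y
      constructor
      · rintro ⟨c', hc', hy⟩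
        exact ⟨c', hc', by rwa [hηc c' hc'] at hy⟩
      · rintro ⟨c', hc', hy⟩
        exact ⟨c', hc', by rwa [← hηc c' hc'] at hy⟩
    · rcases c with _ | c
      · simpa [Rk] using h2
      · have := hηc c rfl
        simp only [Rk] at h2 ⊢
        rwa [← this]
    · intro γ hγ hv
      rcases h3 γ hγ hv with h4 | ⟨c', hc', h4⟩
      · exact Or.inl h4
      · refine Or.inr ⟨c', hc', ?_⟩
        intro x hx hax
        have hηx : f (η x) = g (η x) :=
          hfg _ ((hηe x).trans_lt ((hv.2 x hx).1.trans_le hv.1))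
        have := h4 x hx (fun c'' hc'' => by rw [hηx]; exact hax c'' hc'')
        rwa [hηx] at this
  have hex : ∀ (ζ : Ordinal.{0}) (f : Ordinal.{0} → Set W × ℕ),
      (∀ ξ < ζ, Spec N U η e G ξ f (f ξ)) → ∃ a, Spec N U η e G ζ f a := by
    intro ζ f hf
    obtain ⟨c, a, hc, hR, hgood⟩ := exists_position hηe hf ((G ζ).filter (fun g => Valid U e g ζ))
      (fun g hg => (Finset.mem_filter.1 hg).2) ((Finset.card_filter_le _ _).trans (hG ζ))
    refine ⟨(Anc η f c, a), c, ?_, rfl, ?_, ?_⟩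
    · intro c' hc'
      obtain ⟨⟨g, hg, h4⟩, h5⟩ := hc c' hc'
      exact ⟨h4.trans_le (Finset.mem_filter.1 hg).2.1, h5⟩
    · have : 0 < 2 ^ (N + 1 - ((G ζ).filter (fun g => Valid U e g ζ)).card) := by positivity
      simp only
      omega
    · intro g hg hv
      exact hgood g (Finset.mem_filter.2 ⟨hg, hv⟩)
  obtain ⟨D, hD⟩ := exists_rec (α := Set W × ℕ) (Spec N U η e G) hP hex
  refine ⟨D, fun ζ => inv_of_spec (ζ := Order.succ ζ) hηe (fun ξ _ => hD ξ) ζ
    (Order.lt_succ ζ), ?_⟩
  intro ζ g hg hv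
  obtain ⟨c, -, -, -, h⟩ := hD ζ
  exact h g hg hv

end Tree



/-! ### Comparability graphs of trees of bounded height have no infinite path -/

theorem no_path {V : Type*} (lt : V → V → Prop) (rk : V → ℕ)
    (hrk : ∀ x y, lt x y → rk y < rk x)
    (htrans : ∀ x y z, lt x y → lt y z → lt x z)
    (hchain : ∀ x y z, lt x z → lt y z → x = y ∨ lt x y ∨ lt y x) (N : ℕ) :
    ∀ v : ℕ → V, Function.Injective v → (∀ n, lt (v n) (v (n + 1)) ∨ lt (v (n + 1)) (v n)) →
      (∀ n, rk (v n) ≤ N) → False := by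
  induction N using Nat.strong_induction_on with
  | _ N IH =>
    intro v hv hadj hN
    obtain ⟨m, hm⟩ : ∃ m, ∀ n, rk (v n) ≤ rk (v m) := by
      have hfin : (Set.range (fun n => rk (v n))).Finite :=
        (Set.finite_Iic N).subset (by rintro _ ⟨n, rfl⟩; exact hN n)
      obtain ⟨b, ⟨m, rfl⟩, hb⟩ := hfin.exists_maximalFor id _ ⟨_, 0, rfl⟩
      refine ⟨m, fun n => ?_⟩
      by_contra hcon
      push Not at hcon
      have := hb ⟨n, rfl⟩ hcon.le
      simp only [id] at this
      omega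
    have hup : ∀ n, v (m + n) = v m ∨ lt (v m) (v (m + n)) := by
      intro n
      induction n with
      | zero => exact Or.inl rfl
      | succ n ih =>
        have hno : ¬ lt (v (m + (n + 1))) (v m) := fun h => by
          have h1 := hrk _ _ h
          have h2 := hm (m + (n + 1))
          omega
        rcases ih with ih | ih
        · rcases hadj (m + n) with h | h
          · rw [ih] at h
            exact Or.inr h
          · rw [ih] at h
            exact absurd h hno
        · rcases hadj (m + n) with h | h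
          · exact Or.inr (htrans _ _ _ ih h)
          · rcases hchain _ _ _ ih h with h' | h' | h'
            · exact Or.inl h'.symm
            · exact Or.inr h'
            · exact absurd h' hno
    have hlt : ∀ n, rk (v (m + 1 + n)) < rk (v m) := by
      intro n
      have h1 := hup (1 + n)
      have h2 : m + (1 + n) = m + 1 + n := by ring
      rw [h2] at h1
      rcases h1 with h1 | h1
      · have := hv h1
        omega
      · exact hrk _ _ h1
    have h0 := hlt 0
    refine IH (rk (v m) - 1) (by have := hN m; omega) (fun n => v (m + 1 + n)) ?_ ?_ ?_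
    · intro a b hab
      have := hv hab
      omega
    · intro n
      exact hadj (m + 1 + n)
    · intro n
      have := hlt n
      omega

/-! ### Closing off -/

theorem exists_closed {V Q : Type*} [Countable Q] (e : V → Ordinal.{0}) (he : ∀ x, e x < ω₁)
    (hcount : ∀ δ < ω₁, {x | e x < δ}.Countable) (Wit : Q → Option V → V → Prop) :
    ∃ δ < ω₁, ∀ q c, (∀ c' ∈ c, e c' < δ) → (∃ x, Wit q c x) → ∃ x, e x < δ ∧ Wit q c x := by
  classical
  have hstep : ∀ δ : Ordinal.{0}, ∃ δ' : Ordinal.{0}, δ < ω₁ → (δ' < ω₁ ∧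
      ∀ q c, (∀ c' ∈ c, e c' < δ) → (∃ x, Wit q c x) → ∃ x, e x < δ' ∧ Wit q c x) := by
    intro δ
    by_cases hδ : δ < ω₁
    · let I : Type _ := Q × Option {x // e x < δ}
      have : Countable {x // e x < δ} := (hcount δ hδ).to_subtype
      have : Countable I := inferInstanceAs (Countable (Q × Option {x // e x < δ}))
      let f : I → Ordinal.{0} := fun i =>
        if h : ∃ x, Wit i.1 (i.2.map Subtype.val) x then Order.succ (e h.choose) else 0
      have hf : ∀ i, f i < ω₁ := by
        intro i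
        simp only [f]
        split_ifs with h
        · exact (Cardinal.isSuccLimit_omega 1).succ_lt (he _)
        · exact Ordinal.omega_pos 1
      have hbdd : BddAbove (Set.range f) := ⟨ω₁, by rintro _ ⟨i, rfl⟩; exact (hf i).le⟩
      refine ⟨⨆ i, f i, fun _ => ⟨Ordinal.iSup_lt_omega_one hf, ?_⟩⟩
      intro q c hc hx
      obtain ⟨c₀, rfl⟩ : ∃ c₀ : Option {x // e x < δ}, c = c₀.map Subtype.val := by
        rcases c with _ | c
        · exact ⟨none, rfl⟩
        · exact ⟨some ⟨c, hc c rfl⟩, rfl⟩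
      refine ⟨hx.choose, ?_, hx.choose_spec⟩
      have h1 : f (q, c₀) = Order.succ (e hx.choose) := by
        simp only [f]
        rw [dif_pos hx]
      have h2 : f (q, c₀) ≤ ⨆ i, f i := le_ciSup hbdd _
      rw [h1] at h2
      exact (Order.lt_succ _).trans_le h2
    · exact ⟨0, fun h => absurd h hδ⟩
  choose nxt hnxt using hstep
  let d : ℕ → Ordinal.{0} := fun n => Nat.rec 0 (fun _ δ => max δ (nxt δ)) n
  have hd0 : d 0 = 0 := rfl
  have hds : ∀ n, d (n + 1) = max (d n) (nxt (d n)) := fun n => rfl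
  have hd : ∀ n, d n < ω₁ := by
    intro n
    induction n with
    | zero => exact Ordinal.omega_pos 1
    | succ n ih =>
      rw [hds]
      exact max_lt ih (hnxt _ ih).1
  have hbdd : BddAbove (Set.range d) := ⟨ω₁, by rintro _ ⟨i, rfl⟩; exact (hd i).le⟩
  refine ⟨⨆ n, d n, Ordinal.iSup_lt_omega_one hd, ?_⟩
  intro q c hc hx
  obtain ⟨n, hn⟩ : ∃ n, ∀ c' ∈ c, e c' < d n := by
    rcases c with _ | c
    · exact ⟨0, by simp⟩
    · have h1 := hc c rfl
      obtain ⟨n, hn⟩ := (lt_ciSup_iff hbdd).1 h1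
      exact ⟨n, by simpa using hn⟩
  obtain ⟨x, hx1, hx2⟩ := (hnxt (d n) (hd n)).2 q c hn hx
  refine ⟨x, hx1.trans_le ?_, hx2⟩
  calc nxt (d n) ≤ d (n + 1) := by rw [hds]; exact le_max_right _ _
    _ ≤ ⨆ n, d n := le_ciSup hbdd (n + 1)

/-- A strictly increasing map from an ordinal to the ordinals cannot be bounded by a
smaller ordinal. -/
theorem not_strictMono_of_lt {α β : Ordinal.{0}} (hβ : β < α) (g : Set.Iio α → Ordinal.{0})
    (hg : StrictMono g) (hb : ∀ x, g x < β) : False := by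
  have key : ∀ x : Ordinal.{0}, ∀ hx : x < α, x ≤ g ⟨x, hx⟩ := by
    intro x
    induction x using WellFoundedLT.induction with
    | ind x IH =>
      intro hx
      by_contra hcon
      push Not at hcon
      have h1 : g ⟨x, hx⟩ < α := hcon.trans hx
      have h2 := IH _ hcon h1
      have h3 : g ⟨g ⟨x, hx⟩, h1⟩ < g ⟨x, hx⟩ := hg (by exact hcon)
      exact absurd h2 (not_le.2 h3)
  exact absurd (key β hβ) (not_le.2 (hb ⟨β, hβ⟩))



/-! ### Coordinates of ordinals below `ω₁ ^ (ω + 2)` -/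

/-- First coordinate: the index of the block of length `ω₁ ^ (ω + 1)`. -/
noncomputable def et (x : Ordinal.{0}) : Ordinal.{0} := x / (ω₁ ^ (ω + 1))

/-- Second coordinate: the index of the block of length `ω₁ ^ ω` inside the first block. -/
noncomputable def xi (x : Ordinal.{0}) : Ordinal.{0} := (x % (ω₁ ^ (ω + 1))) / (ω₁ ^ ω)

/-- Third coordinate: the position inside the block of length `ω₁ ^ ω`. -/
noncomputable def ze (x : Ordinal.{0}) : Ordinal.{0} := (x % (ω₁ ^ (ω + 1))) % (ω₁ ^ ω)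

theorem omega_one_pos : (0 : Ordinal.{0}) < ω₁ := Ordinal.omega_pos 1

theorem one_lt_omega_one : (1 : Ordinal.{0}) < ω₁ :=
  Ordinal.one_lt_omega0.trans Ordinal.omega0_lt_omega_one

theorem cpos (o : Ordinal.{0}) : (ω₁ : Ordinal.{0}) ^ o ≠ 0 := opow_ne_zero _ omega_one_pos.ne'

theorem b_eq : (ω₁ : Ordinal.{0}) ^ (ω + 1) = ω₁ ^ ω * ω₁ := opow_add_one _ _

theorem a_eq : (ω₁ : Ordinal.{0}) ^ (ω + 2) = ω₁ ^ (ω + 1) * ω₁ := by
  rw [← opow_add_one]
  congr 1
  rw [add_assoc]
  norm_num

theorem et_lt {x : Ordinal.{0}} (hx : x < ω₁ ^ (ω + 2)) : et x < ω₁ := by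
  rw [a_eq] at hx
  exact (lt_mul_iff_div_lt (cpos _)).1 hx

theorem xi_lt (x : Ordinal.{0}) : xi x < ω₁ := by
  have h : x % (ω₁ ^ (ω + 1)) < ω₁ ^ (ω + 1) := mod_lt _ (cpos _)
  rw [b_eq] at h
  exact (lt_mul_iff_div_lt (cpos _)).1 (by rw [b_eq]; exact h)

theorem ze_lt (x : Ordinal.{0}) : ze x < ω₁ ^ ω := mod_lt _ (cpos _)

theorem exists_ze_lt (x : Ordinal.{0}) : ∃ k : ℕ, ze x < ω₁ ^ (k : Ordinal.{0}) := by
  obtain ⟨o, ho, h⟩ := (lt_opow_of_isSuccLimit omega_one_pos.ne' isSuccLimit_omega0).1 (ze_lt x)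
  obtain ⟨k, rfl⟩ := lt_omega0.1 ho
  exact ⟨k, h⟩

/-- The class index: the least `k` with third coordinate below `ω₁ ^ k`. -/
noncomputable def kap (x : Ordinal.{0}) : ℕ := sInf {k : ℕ | ze x < ω₁ ^ (k : Ordinal.{0})}

theorem ze_lt_of_kap_le {x : Ordinal.{0}} {k : ℕ} (h : kap x ≤ k) :
    ze x < ω₁ ^ (k : Ordinal.{0}) := by
  have h1 : ze x < ω₁ ^ ((kap x : ℕ) : Ordinal.{0}) := Nat.sInf_mem (exists_ze_lt x)
  exact h1.trans_le (opow_le_opow_right omega_one_pos (by exact_mod_cast h))

theorem eq_coords (x : Ordinal.{0}) :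
    x = ω₁ ^ (ω + 1) * et x + (ω₁ ^ ω * xi x + ze x) := by
  rw [xi, ze, div_add_mod, et, div_add_mod]

theorem inner_lt {k : ℕ} {u z : Ordinal.{0}} (hu : u < ω₁) (hz : z < ω₁ ^ (k : Ordinal.{0})) :
    ω₁ ^ (k : Ordinal.{0}) * u + z < ω₁ ^ ω := by
  calc ω₁ ^ (k : Ordinal.{0}) * u + z < ω₁ ^ (k : Ordinal.{0}) * u + ω₁ ^ (k : Ordinal.{0}) := by
        gcongr
    _ = ω₁ ^ (k : Ordinal.{0}) * (u + 1) := by rw [mul_add_one]
    _ ≤ ω₁ ^ (k : Ordinal.{0}) * ω₁ := by
        gcongr
        exact Order.add_one_le_of_lt hu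
    _ = ω₁ ^ ((k : Ordinal.{0}) + 1) := (opow_add_one _ _).symm
    _ ≤ ω₁ ^ ω := by
        apply opow_le_opow_right omega_one_pos
        exact Order.add_one_le_of_lt (natCast_lt_omega0 k)

theorem lex_lt {b u u' r r' : Ordinal.{0}} (h : u < u') (hr : r < b) :
    b * u + r < b * u' + r' := by
  calc b * u + r < b * u + b := by gcongr
    _ = b * (u + 1) := by rw [mul_add_one]
    _ ≤ b * u' := by
        gcongr
        exact Order.add_one_le_of_lt h
    _ ≤ b * u' + r' := le_self_add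

/-- A set of ordinals whose intersection with almost every block of length `ω₁ ^ (ω + 1)` is
of bounded dimension embeds into a proper initial segment. -/
theorem exists_embedding (A : Set Ordinal.{0}) (hA : ∀ x ∈ A, x < ω₁ ^ (ω + 2))
    (η₀ : Ordinal.{0}) (K : Ordinal.{0} → ℕ)
    (hK : ∀ x ∈ A, η₀ ≤ et x → ze x < ω₁ ^ ((K (et x) : ℕ) : Ordinal.{0})) :
    ∃ f : Ordinal.{0} → Ordinal.{0}, (∀ x ∈ A, ∀ y ∈ A, x < y → f x < f y) ∧
      ∀ x ∈ A, f x < ω₁ ^ (ω + 1) * (η₀ + 1) := by
  classical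
  let u : Ordinal.{0} → Ordinal.{0} := fun x =>
    ω₁ ^ ω * et x + (ω₁ ^ ((K (et x) : ℕ) : Ordinal.{0}) * xi x + ze x)
  refine ⟨fun x => if et x < η₀ then x else ω₁ ^ (ω + 1) * η₀ + u x, ?_, ?_⟩
  · intro x hx y hy hxy
    have hle : et x ≤ et y := div_le_left hxy.le _
    by_cases h1 : et y < η₀
    · have h2 : et x < η₀ := hle.trans_lt h1
      simp only [h1, h2, if_true]
      exact hxy
    · simp only [h1, if_false]
      by_cases h2 : et x < η₀
      · simp only [h2, if_true]
        have h3 : x < ω₁ ^ (ω + 1) * η₀ := (lt_mul_iff_div_lt (cpos _)).2 h2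
        exact h3.trans_le le_self_add
      · simp only [h2, if_false]
        push Not at h1 h2
        have hinx := inner_lt (xi_lt x) (hK x hx h2)
        have hiny := inner_lt (xi_lt y) (hK y hy h1)
        gcongr
        rcases hle.lt_or_eq with h3 | h3
        · exact lex_lt h3 hinx
        · simp only [u]
          rw [← h3]
          gcongr
          have ex := eq_coords x
          have ey := eq_coords y
          rw [← h3] at ey
          have h4 : ω₁ ^ ω * xi x + ze x < ω₁ ^ ω * xi y + ze y := by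
            rw [ex, ey] at hxy
            exact (add_lt_add_iff_left _).1 hxy
          rcases lt_trichotomy (xi x) (xi y) with h5 | h5 | h5
          · exact lex_lt h5 (hK x hx h2)
          · rw [h5] at h4 ⊢
            gcongr
            exact (add_lt_add_iff_left _).1 h4
          · exact absurd h4 (not_lt.2 (lex_lt h5 (ze_lt y)).le)
  · intro x hx
    by_cases h2 : et x < η₀
    · simp only [h2, if_true]
      have h3 : x < ω₁ ^ (ω + 1) * η₀ := (lt_mul_iff_div_lt (cpos _)).2 h2
      refine h3.trans_le ?_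
      gcongr
      exact le_self_add
    · simp only [h2, if_false]
      push Not at h2
      rw [mul_add_one]
      gcongr
      rw [b_eq]
      have h3 := lex_lt (r' := 0) (et_lt (hA x hx)) (inner_lt (xi_lt x) (hK x hx h2))
      rw [add_zero] at h3
      exact h3


/-! ### Countability and the enumeration of guesses -/

theorem countable_Iio {δ : Ordinal.{0}} (hδ : δ < ω₁) : (Set.Iio δ).Countable := by
  rw [← Cardinal.le_aleph0_iff_set_countable, Cardinal.mk_Iio_ordinal, ← Cardinal.lift_aleph0.{1, 0},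
    Cardinal.lift_le]
  have h1 : δ.card < ℵ₁ := by
    rwa [← Cardinal.ord_aleph, Cardinal.lt_ord] at hδ
  rw [← Cardinal.succ_aleph0] at h1
  exact Order.lt_succ_iff.1 h1

theorem card_omega_one : (ω₁ : Ordinal.{0}).card = ℵ₁ := by
  rw [← Cardinal.ord_aleph, Cardinal.card_ord]

theorem mk_V : #V = ℵ₁ := by
  rw [Cardinal.mk_Iio_ordinal]
  have h1 : ((ω₁ : Ordinal.{0}) ^ (ω + 2)).card = ℵ₁ := by
    rw [Ordinal.card_opow_eq_of_omega0_le_left Ordinal.omega0_lt_omega_one.le
      (by positivity), card_omega_one]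
    apply max_eq_left
    have h : ω + 2 < (ω₁ : Ordinal.{0}) := by
      have h2 : ω + ((2 : ℕ) : Ordinal.{0}) < ω₁ :=
        (Cardinal.isSuccLimit_omega 1).add_natCast_lt Ordinal.omega0_lt_omega_one 2
      exact_mod_cast h2
    rw [← Cardinal.ord_aleph, Cardinal.lt_ord] at h
    exact h.le
  rw [h1]
  simp

theorem mk_Iio_omega_one : #(Set.Iio (ω₁ : Ordinal.{0})) = ℵ₁ := by
  rw [Cardinal.mk_Iio_ordinal, card_omega_one]
  simp

/-- Codes of guesses: a countable ordinal and a sequence of vertices. -/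
abbrev Code : Type 1 := Set.Iio (ω₁ : Ordinal.{0}) × (ℕ → Option V)

theorem exists_codes (hCH : Cardinal.continuum.{0} ≤ ℵ₁) :
    ∃ γ : Ordinal.{0} → Code, ∀ g : Code, ∃ β < ω₁, γ β = g := by
  classical
  have h1 : #Code ≤ #(Set.Iio (ω₁ : Ordinal.{0})) := by
    rw [Cardinal.mk_prod, Cardinal.lift_id, Cardinal.lift_id, mk_Iio_omega_one]
    have h2 : #(ℕ → Option V) ≤ ℵ₁ := by
      have hCH1 : Cardinal.continuum.{1} ≤ ℵ₁ := by
        have := Cardinal.lift_le.{1}.2 hCH
        simpa using this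
      rw [Cardinal.mk_arrow]
      simp only [Cardinal.mk_option, mk_V, Cardinal.mk_nat, Cardinal.lift_aleph0,
        Cardinal.lift_uzero]
      calc (ℵ₁ + 1 : Cardinal.{1}) ^ ℵ₀ ≤ (2 ^ ℵ₀) ^ ℵ₀ := by
            apply Cardinal.power_le_power_right
            rw [Cardinal.add_one_eq (Cardinal.aleph0_le_aleph 1)]
            rw [Cardinal.two_power_aleph0]
            exact Cardinal.aleph_one_le_continuum
        _ = 2 ^ ℵ₀ := by rw [← Cardinal.power_mul, Cardinal.aleph0_mul_aleph0]
        _ = Cardinal.continuum := Cardinal.two_power_aleph0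
        _ ≤ ℵ₁ := hCH1
    calc ℵ₁ * #(ℕ → Option V) ≤ ℵ₁ * ℵ₁ := by gcongr
      _ = ℵ₁ := Cardinal.mul_eq_self (Cardinal.aleph0_le_aleph 1)
  obtain ⟨code⟩ := h1
  refine ⟨fun β => if h : ∃ g, (code g).1 = β then h.choose else
    (⟨0, omega_one_pos⟩, fun _ => none), fun g => ⟨(code g).1, (code g).2, ?_⟩⟩
  have h : ∃ g', (code g').1 = (code g).1 := ⟨g, rfl⟩
  simp only
  rw [dif_pos h]
  exact code.injective (Subtype.ext h.choose_spec)

/-! ### The counterexample under the continuum hypothesis -/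

theorem counterexample (hCH : Cardinal.continuum.{0} ≤ ℵ₁) :
    ∃ G : SimpleGraph V, (¬ ∃ v : ℕ → V, Function.Injective v ∧ ∀ n, G.Adj (v n) (v (n + 1))) ∧
      ∀ S : Set V, G.IsIndepSet S → ¬ Nonempty (S ≃o V) := by
  classical
  -- an injective index
  obtain ⟨g₀⟩ : Nonempty (V ≃ Set.Iio (ω₁ : Ordinal.{0})) :=
    Cardinal.eq.1 (by rw [mk_V, mk_Iio_omega_one])
  let et' : V → Ordinal.{0} := fun x => et x.1
  have het' : ∀ x, et' x < ω₁ := fun x => et_lt x.2
  let e : V → Ordinal.{0} := fun x => max (g₀ x).1 (et' x)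
  have he : ∀ x, e x < ω₁ := fun x => max_lt (g₀ x).2 (het' x)
  have hηe : ∀ x, et' x ≤ e x := fun x => le_max_right _ _
  have hcount : ∀ δ < (ω₁ : Ordinal.{0}), {x | e x < δ}.Countable := by
    intro δ hδ
    have h1 : (Set.Iio δ).Countable := countable_Iio hδ
    have h2 : ((fun x : V => (g₀ x).1) ⁻¹' Set.Iio δ).Countable :=
      h1.preimage_of_injOn (fun x _ y _ h => g₀.injective (Subtype.ext h))
    refine h2.mono ?_
    intro x hx
    have hx' : e x < δ := hx
    exact (le_max_left _ _).trans_lt hx'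
  -- codes and enumerations of countable initial segments
  obtain ⟨γ, hγ⟩ := exists_codes hCH
  have hen : ∀ ζ : Ordinal.{0}, ∃ f : ℕ → Ordinal.{0}, ζ < ω₁ → Set.Iio ζ ⊆ Set.range f := by
    intro ζ
    by_cases hζ : ζ < ω₁
    · obtain ⟨f, hf⟩ := Set.countable_iff_exists_subset_range.1 (countable_Iio hζ)
      exact ⟨f, fun _ => hf⟩
    · exact ⟨fun _ => 0, fun h => absurd h hζ⟩
  choose en hen using hen
  let U : ℕ → Set V := fun k => {x | kap x.1 = k}
  let gs : ℕ → Ordinal.{0} → Ordinal.{0} × Set V := fun k β =>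
    ((γ β).1.1, {x | (∃ m, (γ β).2 m = some x) ∧ x ∈ U k})
  let G : ℕ → Ordinal.{0} → Finset (Ordinal.{0} × Set V) := fun k ζ =>
    (Finset.range k).image (fun n => gs k (en ζ n))
  have hGcard : ∀ k ζ, (G k ζ).card ≤ k := fun k ζ => by
    simpa using Finset.card_image_le (s := Finset.range k) (f := fun n => gs k (en ζ n))
  have htree := fun k => exists_tree (N := k) (U := U k) hηe (G k) (hGcard k)
  choose D hInv hGood using htree
  let lt : V → V → Prop := fun x y => x ∈ (D (kap y.1) (et' y)).1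
  have hkap : ∀ x y, lt x y → kap x.1 = kap y.1 := fun x y h => (hInv _ _).mem x h
  let rk : V → ℕ := fun x => (D (kap x.1) (et' x)).2
  have hirr : ∀ x, ¬ lt x x := fun x h =>
    absurd ((hInv _ _).lt x h) (not_lt.2 (hηe x))
  let Gr : SimpleGraph V :=
    { Adj := fun x y => lt x y ∨ lt y x
      symm := ⟨fun x y h => h.symm⟩
      loopless := ⟨fun x h => h.elim (hirr x) (hirr x)⟩ }
  refine ⟨Gr, ?_, ?_⟩
  · -- no infinite path
    rintro ⟨v, hv, hadj⟩
    have hk : ∀ n, kap (v n).1 = kap (v 0).1 := by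
      intro n
      induction n with
      | zero => rfl
      | succ n ih =>
        rcases hadj n with h | h
        · rw [← hkap _ _ h, ih]
        · rw [hkap _ _ h, ih]
    refine no_path lt rk ?_ ?_ ?_ (2 ^ (kap (v 0).1 + 1)) v hv hadj ?_
    · intro x y h
      have h1 := (hInv _ _).rank x h
      simp only [rk]
      rw [hkap x y h]
      exact h1
    · intro x y z h h'
      have h1 := hkap y z h'
      have h2 : x ∈ (D (kap z.1) (et' y)).1 := by rw [← h1]; exact h
      exact (hInv _ _).trans y h' x h2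
    · intro x y z h h'
      rcases (hInv _ _).chain x h y h' with h1 | h1 | h1
      · exact Or.inl h1
      · refine Or.inr (Or.inl ?_)
        simp only [lt]
        rw [hkap y z h']
        exact h1
      · refine Or.inr (Or.inr ?_)
        simp only [lt]
        rw [hkap x z h]
        exact h1
    · intro n
      simp only [rk]
      rw [hk n]
      exact ((hInv _ _).bound).le
  · -- independent sets are small
    rintro S hS ⟨iso⟩
    obtain ⟨δ, hδ, hclosed⟩ := exists_closed (Q := ℕ × ℕ) e he hcount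
      (fun q c x => x ∈ S ∧ kap x.1 = q.1 ∧ Above et' (D q.1) c x ∧
        q.2 ≤ (D q.1 (et' x)).2)
    obtain ⟨s, hs⟩ : ∃ s : ℕ → Option V, ∀ x, (∃ m, s m = some x) ↔ (x ∈ S ∧ e x < δ) := by
      have hc : {x | x ∈ S ∧ e x < δ}.Countable := (hcount δ hδ).mono (fun x hx => hx.2)
      rcases Set.eq_empty_or_nonempty {x | x ∈ S ∧ e x < δ} with h0 | h0
      · refine ⟨fun _ => none, fun x => ⟨by simp, fun hx => ?_⟩⟩
        have : x ∈ {x | x ∈ S ∧ e x < δ} := hx
        rw [h0] at this
        exact absurd this (Set.notMem_empty x)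
      · obtain ⟨f, hf⟩ := hc.exists_eq_range h0
        refine ⟨fun n => some (f n), fun x => ?_⟩
        have : x ∈ {x | x ∈ S ∧ e x < δ} ↔ x ∈ Set.range f := by rw [hf]
        simpa using this.symm
    obtain ⟨β, hβ, hγβ⟩ := hγ (⟨δ, hδ⟩, s)
    let K : Ordinal.{0} → ℕ := fun ζ => if h : ∃ n, en ζ n = β then h.choose + 1 else 0
    let η₀ : Ordinal.{0} := max (Order.succ β) δ
    have hη₀ : η₀ < ω₁ := max_lt ((Cardinal.isSuccLimit_omega 1).succ_lt hβ) hδ
    have hkey : ∀ x ∈ S, η₀ ≤ et' x → kap x.1 ≤ K (et' x) := by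
      intro x hx hζ
      by_contra hcon
      push Not at hcon
      have hβζ : β < et' x := (Order.lt_succ β).trans_le ((le_max_left _ _).trans hζ)
      have hδζ : δ ≤ et' x := (le_max_right _ _).trans hζ
      have hn : ∃ n, en (et' x) n = β := hen _ (het' x) hβζ
      have hKe : K (et' x) = hn.choose + 1 := by simp only [K]; rw [dif_pos hn]
      have hgs : gs (kap x.1) β = (δ, {y | (y ∈ S ∧ e y < δ) ∧ y ∈ U (kap x.1)}) := by
        simp only [gs, hγβ]
        congr 1
        ext y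
        simp only [Set.mem_ofPred_eq, hs]
      have hmem : gs (kap x.1) β ∈ G (kap x.1) (et' x) := by
        refine Finset.mem_image.2 ⟨hn.choose, Finset.mem_range.2 (by omega), ?_⟩
        rw [hn.choose_spec]
      have hval : Valid (U (kap x.1)) e (gs (kap x.1) β) (et' x) := by
        rw [hgs]
        exact ⟨hδζ, fun y hy => ⟨hy.1.2, hy.2⟩⟩
      have hgood := hGood _ _ _ hmem hval
      rw [hgs] at hgood
      rcases hgood with ⟨y, hy, hy'⟩ | ⟨c, hc, hc'⟩
      · -- an element of `S` below `x`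
        have h1 : Gr.Adj y x := Or.inl hy'
        exact hS hy.1.1 hx (fun h => hirr x (by rw [h] at hy'; exact hy')) h1
      · have hax : Above et' (D (kap x.1)) c x := fun c' hc'' => (hc c' hc'').1
        obtain ⟨y, hyδ, hyS, hyk, hyc, hyr⟩ := hclosed (kap x.1, (D (kap x.1) (et' x)).2) c
          (fun c' hc'' => (hc c' hc'').2) ⟨x, hx, rfl, hax, le_rfl⟩
        have := hc' y ⟨⟨hyS, hyδ⟩, hyk⟩ hyc
        exact absurd hyr (not_le.2 this)
    -- embed into a smaller ordinal
    let A : Set Ordinal.{0} := Subtype.val '' S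
    obtain ⟨f, hf1, hf2⟩ := exists_embedding A
      (by rintro _ ⟨x, _, rfl⟩; exact x.2) η₀ K
      (by
        rintro _ ⟨x, hx, rfl⟩ h
        exact ze_lt_of_kap_le (hkey x hx h))
    refine not_strictMono_of_lt (α := ω₁ ^ (ω + 2)) (β := ω₁ ^ (ω + 1) * (η₀ + 1)) ?_
      (fun x => f (iso.symm x).1.1) ?_ ?_
    · rw [a_eq]
      have h1 : η₀ + 1 < ω₁ := by
        have := (Cardinal.isSuccLimit_omega 1).succ_lt hη₀
        rwa [← Order.succ_eq_add_one]
      exact (mul_lt_mul_iff_right₀ (pos_iff_ne_zero.2 (cpos _))).2 h1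
    · intro x y hxy
      apply hf1
      · exact ⟨_, (iso.symm x).2, rfl⟩
      · exact ⟨_, (iso.symm y).2, rfl⟩
      · exact iso.symm.strictMono hxy
    · intro x
      exact hf2 _ ⟨_, (iso.symm x).2, rfl⟩

/-- If every graph on `ω₁ ^ (ω + 2)` has an infinite path or an independent set of order type
`ω₁ ^ (ω + 2)`, then `ℵ₁ < 2 ^ ℵ₀`: the statement of Q1 refutes the continuum hypothesis. -/
theorem result : ErdosStatement → ℵ₁ < (2 : Cardinal.{0}) ^ ℵ₀ := by
  intro h
  rw [Cardinal.two_power_aleph0]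
  by_contra hcon
  push Not at hcon
  obtain ⟨G, hG1, hG2⟩ := counterexample hcon
  rcases h G with h1 | ⟨S, hS, hS'⟩
  · exact hG1 h1
  · exact hG2 S hS hS'

end Pool.Agent.Results.MP_46bbfb_lc.RefutesCH
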